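import Pool.Agent.KTR55.Exists

/-!
# Gap-MCSP and statistical zero knowledge relative to a random oracle
-/

set_option autoImplicit false

namespace Pool.Agent.Results.MP_2ca196_lc.RandomOracle

open MeasureTheory Pool.Agent.ROr14 Pool.Agent.KTR55

/-- For every universal machine `U` and every `k` (with `k = 2` for Gap-MCSP itself): for almost
every oracle `R`, and for every oracle `A` and almost every `R`, relative to `R` respectively
`A ⊕ R` Gap-MCSP is not in SZK, it is not decided by any polynomial-time machine with random bits,
advice and access to the solutions of Statistical Difference, and its NO-instances have no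
interactive proofs, even with advice. Moreover universal machines exist. -/
theorem result :
    (∃ U : Machine, IsUniversal U) ∧
    ∀ U : Machine, IsUniversal U → ∀ k : ℕ,
      (∀ᵐ R ∂randomOracle, Separated U k R) ∧
      ∀ A : List Bool → Bool, ∀ᵐ R ∂randomOracle, Separated U k (join A R) := by
  refine ⟨exists_universal, fun U hU k => ⟨?_, fun A => ?_⟩⟩
  · have h := main hU accR (fun _ => false) k
    simp only [mix_accR] at h
    exact h
  · have h := main hU accJ (join A fun _ => false) k
    simp only [mix_accJ] at h
    exact h

end Pool.Agent.Results.MP_2ca196_lc.RandomOracle
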